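import Pool.Agent.Work.MP_fbd45d_lc.HierFin

/-!
# Non-absoluteness of amalgamation in `ℵ_α` for every countable ordinal `α`

All the definitions used by the statement are in `Pool/Agent/Work/MP_fbd45d_lc/Defs.lean`.

Outline of the proof.  Let `r` be a real which codes an enumeration of a countable transitive set
containing `α`.  The sentence `phi r` says that all the elements of the model code one and the
same relation `E` on the natural numbers, that `E` satisfies all the formulas valid in the
transitive models of ZFC + GCH and has `r` in its standard part, and that if the model has an
element with the first mark and an element with the second mark, then it has an element which
codes a nonempty set of natural numbers without `E`-minimal element.  Let `V` be a countable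
transitive model of ZFC + GCH of least rank containing `r`.  Then no relation `E` as above which
lies in `V` is well-founded, so a descending set for `E` can be added to any amalgam, and
`ℵ_α`-amalgamation holds in `V`.  Let `W` be a transitive model of ZFC + GCH with `V` as a
countable element.  In `W` the relation `E` can be taken isomorphic to the membership relation
of `V`; a model with the first mark and a model with the second mark then have no amalgam over a
common submodel without marks, and `ℵ_α`-amalgamation fails in `W`.  Transitive models of
ZFC + GCH containing a given hereditarily countable set are constructed from scratch (a
constructible hierarchy indexed by the ordinals of the lower universe, with condensation).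
-/

namespace Pool.Agent.Results.MP_fbd45d_lc.NonAbsoluteAmalgamation

open Pool.Agent.Work.MP_fbd45d_lc

/-- For every countable ordinal `α`, `ℵ_α`-amalgamation for sentences of `L_{ω₁,ω}` is
non-absolute for transitive models of ZFC + GCH. -/
theorem result (α : Ordinal.{1}) (hα : α < Ordinal.omega 1) : NonAbsolute α :=
  main α hα

end Pool.Agent.Results.MP_fbd45d_lc.NonAbsoluteAmalgamation
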